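import Mathlib
import Pool.Agent.LibCSL.Kop

set_option autoImplicit false
open scoped InnerProductSpace
open Filter Topology

namespace Pool.Agent.Results.MP_0bc9fa_an.NotCompletelyDistributive

open Pool.Agent.LibCSL

section Defs

variable {H : Type} [NormedAddCommGroup H] [InnerProductSpace ℂ H] [CompleteSpace H]

/-- The orthogonal projection of `H` onto the closed subspace `M`. -/
noncomputable def proj (M : ClosedSubmodule ℂ H) : H →L[ℂ] H := M.toSubmodule.starProjection

/-- A commutative subspace lattice: a family of closed subspaces with pairwise commuting orthogonal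
projections that contains `0` and `H` and is closed under arbitrary suprema (closed linear spans)
and infima (intersections). -/
structure IsCSL (L : Set (ClosedSubmodule ℂ H)) : Prop where
  bot_mem : ⊥ ∈ L
  top_mem : ⊤ ∈ L
  sSup_mem : ∀ S ⊆ L, sSup S ∈ L
  sInf_mem : ∀ S ⊆ L, sInf S ∈ L
  commute : ∀ M ∈ L, ∀ N ∈ L, Commute (proj M) (proj N)

/-- The algebra `Alg L` of all bounded operators `A` with `P^⊥ A P = 0` for all `P` in `L`. -/
def Alg (L : Set (ClosedSubmodule ℂ H)) : Set (H →L[ℂ] H) :=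
  {A | ∀ M ∈ L, (1 - proj M) * A * proj M = 0}

/-- Complete distributivity of a family of closed subspaces, for all families of subsets indexed by
a type `X`. -/
def IsCompletelyDistributive (L : Set (ClosedSubmodule ℂ H)) : Prop :=
  ∀ (X : Type) (S : X → Set (ClosedSubmodule ℂ H)), (∀ x, S x ⊆ L) →
    ⨅ x, sSup (S x) =
      sSup {M | ∃ f : X → ClosedSubmodule ℂ H, (∀ x, f x ∈ S x) ∧ M = ⨅ x, f x}

/-- The weak* topology of `B(H)` as the dual of the trace class operators: the coarsest topology for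
which `A ↦ ∑ₙ ⟨xₙ, A yₙ⟩` is continuous for all sequences with `∑ₙ ‖xₙ‖² < ∞`, `∑ₙ ‖yₙ‖² < ∞`. -/
@[reducible] noncomputable def weakStar (H : Type) [NormedAddCommGroup H] [InnerProductSpace ℂ H] :
    TopologicalSpace (H →L[ℂ] H) :=
  ⨅ q : {q : (ℕ → H) × (ℕ → H) //
      Summable (fun n => ‖q.1 n‖ ^ 2) ∧ Summable (fun n => ‖q.2 n‖ ^ 2)},
    TopologicalSpace.induced (fun A : H →L[ℂ] H => ∑' n, ⟪q.1.1 n, A (q.1.2 n)⟫_ℂ) inferInstance

end Defs

theorem Alg_eq {H : Type} [NormedAddCommGroup H] [InnerProductSpace ℂ H] [CompleteSpace H]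
    (L : Set (ClosedSubmodule ℂ H)) : Alg L = algG L := by
  ext A
  constructor
  · intro h M hM x hx
    have h1 := congrArg (fun T : H →L[ℂ] H => T x) (h M hM)
    change A (proj M x) - proj M (A (proj M x)) = 0 at h1
    have h2 : proj M x = x := pr_eq_self.2 hx
    rw [h2, sub_eq_zero] at h1
    exact pr_eq_self.1 h1.symm
  · intro h M hM
    refine ContinuousLinearMap.ext fun x => ?_
    change A (proj M x) - proj M (A (proj M x)) = 0
    rw [sub_eq_zero]
    exact (pr_eq_self.2 (h M hM _ (pr_mem M x))).symm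

theorem separable_HH : TopologicalSpace.SeparableSpace HH := by
  classical
  rw [← TopologicalSpace.isSeparable_univ_iff]
  have h1 : TopologicalSpace.IsSeparable
      (Set.range fun l : Lam => (lp.single (E := fun _ : Lam => ℂ) 2 l (1 : ℂ) : HH)) :=
    (Set.countable_range _).isSeparable
  refine (h1.span (R := ℂ)).closure.mono ?_
  intro f _
  have h2 := lp.hasSum_single (E := fun _ : Lam => ℂ) (p := 2) (by norm_num) f
  refine mem_closure_of_tendsto h2 (Eventually.of_forall fun s => ?_)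
  refine Submodule.sum_mem _ fun l _ => ?_
  have h3 : (lp.single (E := fun _ : Lam => ℂ) 2 l (f l) : HH) =
      f l • lp.single (E := fun _ : Lam => ℂ) 2 l (1 : ℂ) := by
    rw [← lp.single_smul, smul_eq_mul, mul_one]
  rw [h3]
  exact Submodule.smul_mem _ _ (Submodule.subset_span ⟨l, rfl⟩)

theorem tendsto_weakStar (A : HH →L[ℂ] HH) :
    Tendsto (fun J => KJ J * A) atTop (@nhds _ (weakStar HH) A) := by
  unfold weakStar
  rw [nhds_iInf, tendsto_iInf]
  rintro ⟨⟨x, y⟩, hx, hy⟩
  rw [nhds_induced, tendsto_comap_iff]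
  change Tendsto (fun J => ∑' n, ⟪x n, KJ J (A (y n))⟫_ℂ) atTop (𝓝 (∑' n, ⟪x n, A (y n)⟫_ℂ))
  have hb : Summable fun n => 2 * ‖A‖ * (‖x n‖ ^ 2 + ‖y n‖ ^ 2) := (hx.add hy).mul_left _
  apply tendsto_tsum_of_dominated_convergence hb
  · intro n
    exact KJ_wot _ _
  · refine Eventually.of_forall fun J n => ?_
    refine (norm_inner_le_norm _ _).trans ?_
    have h1 := KJ_bound J (A (y n))
    have h2 := A.le_opNorm (y n)
    calc ‖x n‖ * ‖KJ J (A (y n))‖ ≤ ‖x n‖ * (2 * (‖A‖ * ‖y n‖)) := by
          apply mul_le_mul_of_nonneg_left _ (norm_nonneg _)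
          linarith
      _ = 2 * ‖A‖ * (‖x n‖ * ‖y n‖) := by ring
      _ ≤ 2 * ‖A‖ * (‖x n‖ ^ 2 + ‖y n‖ ^ 2) := by
          apply mul_le_mul_of_nonneg_left _ (by positivity)
          nlinarith [sq_nonneg (‖x n‖ - ‖y n‖), sq_nonneg ‖x n‖, sq_nonneg ‖y n‖]

/-- There is a commutative subspace lattice `L` on a separable Hilbert space for which the compact
operators of `Alg L` are weak* dense in `Alg L`, and which is not completely distributive. -/
theorem result : ∃ (H : Type) (_ : NormedAddCommGroup H) (_ : InnerProductSpace ℂ H)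
    (_ : CompleteSpace H) (_ : TopologicalSpace.SeparableSpace H)
    (L : Set (ClosedSubmodule ℂ H)),
    IsCSL L ∧ Alg L ⊆ @closure _ (weakStar H) ({K | IsCompactOperator K} ∩ Alg L) ∧
      ¬ IsCompletelyDistributive L := by
  refine ⟨HH, inferInstance, inferInstance, inferInstance, separable_HH, latAlg GF, ?_, ?_, ?_⟩
  · refine ⟨bot_mem_latAlg _, top_mem_latAlg _, sSup_mem_latAlg _, sInf_mem_latAlg _, ?_⟩
    apply commute_latAlg
    rintro M ⟨j, x, rfl⟩ N ⟨j', x', rfl⟩
    exact HI_commute (GG_HI j x) (GG_HI j' x')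
  · intro A hA
    rw [Alg_eq, algG_latAlg] at hA ⊢
    refine @mem_closure_of_tendsto (HH →L[ℂ] HH) (weakStar HH) ℕ _ _ _ _ _ (tendsto_weakStar A)
      (Eventually.of_forall fun J => ⟨?_, ?_⟩)
    · exact (KJ_compact J).comp_clm A
    · intro M hM x hx
      exact KJ_alg J M hM _ (hA M hM x hx)
  · intro hcd
    have h1 := hcd ℕ (fun j => Set.range (GG j)) (by
      rintro j M ⟨x, rfl⟩
      exact subset_latAlg GF ⟨j, x, rfl⟩)
    have h2 : (⨅ j, sSup (Set.range (GG j))) = (⊤ : ClosedSubmodule ℂ HH) := by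
      simp_rw [join_top]
      exact iInf_top
    have h3 : sSup {M | ∃ f : ℕ → ClosedSubmodule ℂ HH,
        (∀ j, f j ∈ Set.range (GG j)) ∧ M = ⨅ j, f j} ≤ ⊥ := by
      apply sSup_le
      rintro M ⟨f, hf, rfl⟩
      choose x hx using hf
      have h4 : f = fun j => GG j (x j) := by
        funext j
        exact (hx j).symm
      rw [h4, meet_bot]
    rw [← h1, h2] at h3
    classical
    have h5 : (lp.single (E := fun _ : Lam => ℂ) 2 0 (1 : ℂ) : HH) ∈
        (⊥ : ClosedSubmodule ℂ HH) := h3 ClosedSubmodule.mem_top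
    rw [ClosedSubmodule.mem_bot] at h5
    have h6 : (lp.single (E := fun _ : Lam => ℂ) 2 (0 : Lam) (1 : ℂ) : HH) 0 = 0 := by
      rw [h5]; rfl
    rw [lp.single_apply_self] at h6
    exact one_ne_zero h6

end Pool.Agent.Results.MP_0bc9fa_an.NotCompletelyDistributive
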